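import Mathlib

set_option autoImplicit false

namespace Pool.Agent.Results.MP_a48479_al.Split

theorem result (X : Type) (s : FreeGroup X) (n : ℕ) (hn : 0 < n)
    (H : Subgroup (PresentedGroup ({s ^ n} : Set (FreeGroup X))))
    (hH : H ⊓ Subgroup.closure
      {g : PresentedGroup ({s ^ n} : Set (FreeGroup X)) | IsOfFinOrder g} = ⊥)
    (E : Type) [Group E] (π : E →* H) (hπ : Function.Surjective π)
    (hker : ∀ e : E, π e = 1 → e ^ n = 1) :
    ∃ σ : H →* E, ∀ h : H, π (σ h) = h := by
  set q : FreeGroup X →* PresentedGroup ({s ^ n} : Set (FreeGroup X)) := PresentedGroup.mk _ with hq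
  set N := Subgroup.closure {g : PresentedGroup ({s ^ n} : Set (FreeGroup X)) | IsOfFinOrder g}
    with hN
  haveI hNn : N.Normal := by
    constructor
    intro x hx g
    induction hx using Subgroup.closure_induction with
    | mem x hx =>
      exact Subgroup.subset_closure ((MulAut.conj g).toMonoidHom.isOfFinOrder hx)
    | one => simp
    | mul x y _ _ h1 h2 =>
      have := N.mul_mem h1 h2
      simpa [mul_assoc] using this
    | inv x _ h1 =>
      have := N.inv_mem h1
      simpa [mul_assoc] using this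
  have hsn : q (s ^ n) = 1 :=
    (QuotientGroup.eq_one_iff _).2 (Subgroup.subset_normalClosure rfl)
  have hs : q s ∈ N := Subgroup.subset_closure
    (isOfFinOrder_iff_pow_eq_one.2 ⟨n, hn, by rw [← map_pow, hsn]⟩)
  -- the projection of H N onto H
  let j : H →* _ ⧸ N := (QuotientGroup.mk' N).comp H.subtype
  have hj : Function.Injective j := by
    rw [injective_iff_map_eq_one]
    intro h hh
    have h1 : (h : PresentedGroup _) ∈ H ⊓ N := ⟨h.2, (QuotientGroup.eq_one_iff _).1 hh⟩
    rw [hH] at h1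
    exact Subtype.ext h1
  let Q : FreeGroup X →* _ ⧸ N := (QuotientGroup.mk' N).comp q
  let L : Subgroup (FreeGroup X) := j.range.comap Q
  let ρ : L →* H := (MonoidHom.ofInjective hj).symm.toMonoidHom.comp
    ((Q.comp L.subtype).codRestrict j.range fun x => x.2)
  have hρ : ∀ x : L, j (ρ x) = Q x := fun x =>
    MonoidHom.apply_ofInjective_symm hj _
  choose t ht using hπ
  let θ : L →* E := IsFreeGroup.lift fun b => t (ρ (IsFreeGroup.of b))
  have hθ : ∀ x, π (θ x) = ρ x := fun x => by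
    have : π.comp θ = ρ := IsFreeGroup.ext_hom fun b => by simp [θ, ht]
    exact DFunLike.congr_fun this x
  have hK : ∀ x : FreeGroup X, q x = 1 → ∃ hx : x ∈ L, θ ⟨x, hx⟩ = 1 := by
    intro x hx
    have hx' : x ∈ Subgroup.normalClosure ({s ^ n} : Set (FreeGroup X)) :=
      (QuotientGroup.eq_one_iff _).1 hx
    clear hx
    induction hx' using Subgroup.closure_induction with
    | mem x hx =>
      obtain ⟨a, ha, hc⟩ := Group.mem_conjugatesOfSet_iff.1 hx
      obtain rfl : a = s ^ n := ha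
      obtain ⟨c, rfl⟩ := isConj_iff.1 hc
      have h1 : Q (c * s * c⁻¹) = 1 := by
        refine (QuotientGroup.eq_one_iff _).2 ?_
        simpa using hNn.conj_mem _ hs (q c)
      have h2 : c * s * c⁻¹ ∈ L := by
        show Q _ ∈ j.range
        rw [h1]
        exact one_mem _
      have h3 : c * s ^ n * c⁻¹ = (c * s * c⁻¹) ^ n := by simp
      refine ⟨h3 ▸ L.pow_mem h2 n, ?_⟩
      have h4 : θ ⟨c * s * c⁻¹, h2⟩ ^ n = 1 := by
        apply hker
        apply hj
        rw [hθ, hρ, map_one]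
        exact h1
      rw [← h4, ← map_pow]
      congr 1
      exact Subtype.ext h3
    | one => exact ⟨L.one_mem, map_one θ⟩
    | mul x y _ _ h1 h2 =>
      obtain ⟨h1, e1⟩ := h1
      obtain ⟨h2, e2⟩ := h2
      exact ⟨L.mul_mem h1 h2, by
        rw [show (⟨x * y, L.mul_mem h1 h2⟩ : L) = ⟨x, h1⟩ * ⟨y, h2⟩ from rfl, map_mul, e1, e2,
          mul_one]⟩
    | inv x _ h1 =>
      obtain ⟨h1, e1⟩ := h1
      exact ⟨L.inv_mem h1, by
        rw [show (⟨x⁻¹, L.inv_mem h1⟩ : L) = ⟨x, h1⟩⁻¹ from rfl, map_inv, e1, inv_one]⟩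
  have hq' : Function.Surjective q := QuotientGroup.mk'_surjective _
  choose u hu using hq'
  have huL : ∀ h : H, u h ∈ L := fun h => ⟨h, by simp [j, Q, hu]⟩
  refine ⟨MonoidHom.mk' (fun h => θ ⟨u h, huL h⟩) fun a b => ?_, fun h => ?_⟩
  · obtain ⟨h1, e1⟩ := hK ((u (a * b : H))⁻¹ * (u a * u b)) (by simp [hu])
    have : (⟨_, h1⟩ : L) = (⟨u (a * b : H), huL _⟩ : L)⁻¹ * (⟨u a, huL a⟩ * ⟨u b, huL b⟩) := rfl
    rw [this, map_mul, map_inv, map_mul, inv_mul_eq_one] at e1
    exact e1
  · apply hj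
    show j (π (θ _)) = _
    rw [hθ, hρ]
    simp [j, Q, hu]

end Pool.Agent.Results.MP_a48479_al.Split
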